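import Pool.Agent.K7.H72.AF.TBASE
import Pool.Agent.K7.H74.AG.Stm

set_option autoImplicit false

/-!
# Job TBASE: the excess and deficit sets for `k + 1` variables
-/

open MeasureTheory Finset

namespace Pool.Agent.K7.H7.AG

open Pool.Agent.K7.H74.AF (lo blk Box mx e tbase_fib tbase_summ)
open Pool.Agent.K7.H74.AG

/-- JOB TBASE -/
theorem tbase (hV : StVar) (hM : StMeas) (_hS : StSplit) : StTbase := by
  intro k m ε η hk hm hε hη hη1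
  obtain ⟨C, A, hC, hvar⟩ := hV k m η hk hm hη hη1
  set g : (Fin (k + 1) → ℕ) → (Fin (k + 1) → ℝ) → ENNReal := fun b ξ =>
    ∫⁻ τ : ℝ, ENNReal.ofReal (((cn k ξ b η τ : ℝ) - vl k ξ b η τ) ^ 2) with hg
  have hfm : ∀ b : Fin (k + 1) → ℕ, Measurable (fun p : (Fin (k + 1) → ℝ) × ℝ =>
      ENNReal.ofReal (((cn k p.1 b η p.2 : ℝ) - vl k p.1 b η p.2) ^ 2)) := fun b =>
    ENNReal.measurable_ofReal.comp
      (((hM.1 k (k + 1) b η).sub (hM.2.1 k (k + 1) b η)).pow_const 2)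
  have hgm : ∀ b, Measurable (g b) := fun b => (hfm b).lintegral_prod_right'
  set w : (Fin (k + 1) → ℕ) → ENNReal := fun b =>
    ENNReal.ofReal (((3 : ℝ) ^ mx b) ^ (-((k : ℝ) + 1 + ε))) with hw
  have hsum : ∫⁻ ξ, ∑' b, w b * g b ξ ∂(cub m (k + 1)) ≠ ⊤ := by
    rw [lintegral_tsum (fun b => ((hgm b).const_mul _).aemeasurable)]
    refine ne_top_of_le_ne_top (tbase_summ (k + 1) A C ε hC hε) (ENNReal.tsum_le_tsum fun b => ?_)
    rw [lintegral_const_mul _ (hgm b)]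
    refine (mul_le_mul_right (hvar b) (w b)).trans ?_
    rw [hw, ← ENNReal.ofReal_mul (by positivity)]
    refine ENNReal.ofReal_le_ofReal (le_of_eq ?_)
    have e1 : ((3 : ℝ) ^ mx b) ^ (-((k : ℝ) + 1 + ε)) * ((3 : ℝ) ^ mx b) ^ (k + 1) =
        ((3 : ℝ) ^ mx b) ^ (-ε) := by
      rw [← Real.rpow_natCast ((3 : ℝ) ^ mx b) (k + 1), ← Real.rpow_add (by positivity)]
      congr 1
      push_cast
      ring
    calc ((3 : ℝ) ^ mx b) ^ (-((k : ℝ) + 1 + ε)) * (C * (1 + (mx b : ℝ)) ^ A * ((3 : ℝ) ^ mx b) ^ (k + 1))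
        = C * (1 + (mx b : ℝ)) ^ A *
          (((3 : ℝ) ^ mx b) ^ (-((k : ℝ) + 1 + ε)) * ((3 : ℝ) ^ mx b) ^ (k + 1)) := by ring
      _ = _ := by rw [e1]
  have hae := ae_lt_top (Measurable.tsum fun b => (hgm b).const_mul (w b)) hsum
  filter_upwards [hae] with ξ hξ
  set S := ∑' b, w b * g b ξ with hSdef
  have hSne : S ≠ ⊤ := hξ.ne
  have key : ∀ (b : Fin (k + 1) → ℕ) (J l : ℕ), mx b ≤ J → ∀ B : Set ℝ,
      (∀ τ ∈ B, (2 : ℝ) ^ l ≤ |(cn k ξ b η τ : ℝ) - vl k ξ b η τ|) →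
      volume B ≤ ENNReal.ofReal ((⌈S.toReal⌉₊ : ℕ) * ((3 : ℝ) ^ J) ^ ((k : ℝ) - 2 ^ 1 / 2 + ε) *
        (((3 : ℝ) ^ J) ^ ((1 : ℕ) : ℝ) / 2 ^ l) ^ (2 ^ 1)) := by
    intro b J l hJ B hB
    have hwpos : 0 < ((3 : ℝ) ^ mx b) ^ (-((k : ℝ) + 1 + ε)) := by positivity
    -- the second moment
    have h1 : w b * g b ξ ≤ S := ENNReal.le_tsum b
    -- Chebyshev
    have h2 : ENNReal.ofReal ((2 ^ l) ^ 2) * volume B ≤ g b ξ := by
      have h3 := mul_meas_ge_le_lintegral (μ := (volume : Measure ℝ))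
        ((hfm b).comp (measurable_prodMk_left (x := ξ))) (ENNReal.ofReal ((2 ^ l) ^ 2))
      refine le_trans (mul_le_mul_right (measure_mono ?_) _) h3
      intro τ hτ
      refine ENNReal.ofReal_le_ofReal ?_
      have h9 := hB τ hτ
      calc ((2 : ℝ) ^ l) ^ 2 ≤ |(cn k ξ b η τ : ℝ) - vl k ξ b η τ| ^ 2 :=
            pow_le_pow_left₀ (by positivity) h9 2
        _ = _ := sq_abs _
    have h3 : ENNReal.ofReal (((3 : ℝ) ^ mx b) ^ (-((k : ℝ) + 1 + ε)) * (2 ^ l) ^ 2) *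
        volume B ≤ ENNReal.ofReal S.toReal := by
      rw [ENNReal.ofReal_toReal hSne, ENNReal.ofReal_mul hwpos.le, mul_assoc]
      exact (mul_le_mul_right h2 _).trans h1
    have hpos : 0 < ((3 : ℝ) ^ mx b) ^ (-((k : ℝ) + 1 + ε)) * ((2 : ℝ) ^ l) ^ 2 := by positivity
    have h4 : volume B ≤
        ENNReal.ofReal (S.toReal / (((3 : ℝ) ^ mx b) ^ (-((k : ℝ) + 1 + ε)) * (2 ^ l) ^ 2)) := by
      rw [ENNReal.ofReal_div_of_pos hpos, ENNReal.le_div_iff_mul_le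
        (Or.inl (by simpa using hpos)) (Or.inl ENNReal.ofReal_ne_top), mul_comm]
      exact h3
    refine h4.trans (ENNReal.ofReal_le_ofReal ?_)
    have h3J : (1 : ℝ) ≤ (3 : ℝ) ^ mx b := one_le_pow₀ (by norm_num)
    have hmono : (3 : ℝ) ^ mx b ≤ (3 : ℝ) ^ J := pow_le_pow_right₀ (by norm_num) hJ
    have h5 : ((3 : ℝ) ^ mx b) ^ ((k : ℝ) + 1 + ε) ≤ ((3 : ℝ) ^ J) ^ ((k : ℝ) + 1 + ε) :=
      Real.rpow_le_rpow (by positivity) hmono (by positivity)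
    have h6 : ((3 : ℝ) ^ J) ^ ((k : ℝ) - 2 ^ 1 / 2 + ε) * ((((3 : ℝ) ^ J) ^ ((1 : ℕ) : ℝ)) ^ (2 ^ 1)) =
        ((3 : ℝ) ^ J) ^ ((k : ℝ) + 1 + ε) := by
      rw [← Real.rpow_natCast _ (2 ^ 1), ← Real.rpow_mul (by positivity), ← Real.rpow_add (by positivity)]
      congr 1
      push_cast
      ring
    rw [div_pow, ← mul_div_assoc, mul_assoc, h6, Real.rpow_neg (by positivity)]
    have h7 : S.toReal ≤ (⌈S.toReal⌉₊ : ℝ) := Nat.le_ceil _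
    have hS0 : 0 ≤ S.toReal := ENNReal.toReal_nonneg
    have e : S.toReal / ((((3 : ℝ) ^ mx b) ^ ((k : ℝ) + 1 + ε))⁻¹ * (2 ^ l) ^ 2) =
        S.toReal * ((3 : ℝ) ^ mx b) ^ ((k : ℝ) + 1 + ε) / (2 ^ l) ^ (2 ^ 1) := by
      have : ((3 : ℝ) ^ mx b) ^ ((k : ℝ) + 1 + ε) ≠ 0 := by positivity
      rw [show (2 : ℕ) ^ 1 = 2 from rfl]
      field_simp
    rw [e]
    refine div_le_div_of_nonneg_right ?_ (by positivity)
    exact mul_le_mul h7 h5 (by positivity) (by positivity)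

  refine ⟨⟨⌈S.toReal⌉₊, fun b _ J l hJ _ => key b J l hJ _ fun τ hτ => ?_⟩,
    ⟨⌈S.toReal⌉₊, fun b _ J l hJ _ => key b J l hJ _ fun τ hτ => ?_⟩⟩
  · have hτ' : vl k ξ b η τ + (2 : ℝ) ^ l ≤ cn k ξ b η τ := hτ
    exact le_trans (by linarith) (le_abs_self _)
  · have hτ' : (cn k ξ b η τ : ℝ) + (2 : ℝ) ^ l ≤ vl k ξ b η τ := hτ
    exact le_trans (by linarith) (neg_le_abs _)

end Pool.Agent.K7.H7.AG
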